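import Mathlib
import Pool.Graph.R_pool_sql_team_18ca10b6.Results.MP_e06427_co.NotCritical

/-!
Dirac's generalisation of the Hajos construction fails to preserve criticality for every pair
`(k, h)` in the open range: for all `k ≥ 5` and `3 ≤ h ≤ k - 2`.
-/

namespace Pool.Agent.Results.MP_e06427_co.EveryOpenPair

open NotCritical (G1 key' cols edge_critical no_isolated colorable5 not_colorable)

/-- `G` is `k`-critical: its chromatic number is `k` and every proper subgraph has smaller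
chromatic number. -/
def IsCritical {V : Type} (G : SimpleGraph V) (k : ℕ) : Prop :=
  G.chromaticNumber = k ∧ ∀ H : G.Subgraph, H ≠ ⊤ → H.coe.chromaticNumber < k

/-- The input data of Dirac's construction: `f₁`, `f₂` list the vertices of the complete
`h`-graphs `H₁ ⊆ G₁`, `H₂ ⊆ G₂`, the index `i₀` marks `x₁ = f₁ i₀`, `x₂ = f₂ i₀`, and `yᵢ` is a
vertex of `Gᵢ` outside `Hᵢ` adjacent to `xᵢ`. The identification sends `f₁ i` to `f₂ i`. -/
structure IsDiracData {V₁ V₂ : Type} (k h : ℕ) (G₁ : SimpleGraph V₁) (G₂ : SimpleGraph V₂)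
    (f₁ : Fin h → V₁) (f₂ : Fin h → V₂) (i₀ : Fin h) (y₁ : V₁) (y₂ : V₂) : Prop where
  crit₁ : IsCritical G₁ k
  crit₂ : IsCritical G₂ k
  inj₁ : Function.Injective f₁
  inj₂ : Function.Injective f₂
  clique₁ : ∀ i j, i ≠ j → G₁.Adj (f₁ i) (f₁ j)
  clique₂ : ∀ i j, i ≠ j → G₂.Adj (f₂ i) (f₂ j)
  out₁ : ∀ i, f₁ i ≠ y₁
  out₂ : ∀ i, f₂ i ≠ y₂
  adj₁ : G₁.Adj (f₁ i₀) y₁
  adj₂ : G₂.Adj (f₂ i₀) y₂

/-- `G` (on the vertex set `W`, with the embeddings `g₁`, `g₂` of the two vertex sets) is the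
graph produced by Dirac's construction: the vertex sets are glued exactly along
`f₁ i ~ f₂ i`, and the edges are the edges of `G₁` other than `x₁y₁`, the edges of `G₂` other
than `x₂y₂`, and the new edge `y₁y₂`. -/
structure IsDiracSum {V₁ V₂ W : Type} {h : ℕ} (G₁ : SimpleGraph V₁) (G₂ : SimpleGraph V₂)
    (f₁ : Fin h → V₁) (f₂ : Fin h → V₂) (i₀ : Fin h) (y₁ : V₁) (y₂ : V₂)
    (G : SimpleGraph W) (g₁ : V₁ → W) (g₂ : V₂ → W) : Prop where
  inj₁ : Function.Injective g₁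
  inj₂ : Function.Injective g₂
  cover : ∀ w, (∃ a, g₁ a = w) ∨ (∃ b, g₂ b = w)
  glue : ∀ a b, g₁ a = g₂ b ↔ ∃ i, f₁ i = a ∧ f₂ i = b
  adj : ∀ u v, G.Adj u v ↔
    (∃ a a', G₁.Adj a a' ∧ s(a, a') ≠ s(f₁ i₀, y₁) ∧ g₁ a = u ∧ g₁ a' = v) ∨
    (∃ b b', G₂.Adj b b' ∧ s(b, b') ≠ s(f₂ i₀, y₂) ∧ g₂ b = u ∧ g₂ b' = v) ∨
    s(u, v) = s(g₁ y₁, g₂ y₂)

/-- `G` arises by Dirac's construction with the parameters `k` and `h` from two finite
`k`-critical graphs. -/
def IsDiracGraph (k h : ℕ) {W : Type} (G : SimpleGraph W) : Prop :=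
  ∃ (V₁ V₂ : Type) (_ : Finite V₁) (_ : Finite V₂) (G₁ : SimpleGraph V₁) (G₂ : SimpleGraph V₂)
    (f₁ : Fin h → V₁) (f₂ : Fin h → V₂) (i₀ : Fin h) (y₁ : V₁) (y₂ : V₂)
    (g₁ : V₁ → W) (g₂ : V₂ → W),
    IsDiracData k h G₁ G₂ f₁ f₂ i₀ y₁ y₂ ∧ IsDiracSum G₁ G₂ f₁ f₂ i₀ y₁ y₂ G g₁ g₂

/-! ### Existence of the glued graph -/

lemma exists_sum {V₁ V₂ : Type} [Finite V₁] [Finite V₂] {h : ℕ} (G₁ : SimpleGraph V₁)
    (G₂ : SimpleGraph V₂)
    (f₁ : Fin h → V₁) (f₂ : Fin h → V₂) (i₀ : Fin h) (y₁ : V₁) (y₂ : V₂)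
    (h₁ : Function.Injective f₁) (h₂ : Function.Injective f₂) (o₂ : ∀ i, f₂ i ≠ y₂) :
    ∃ (W : Type) (_ : Finite W) (G : SimpleGraph W) (g₁ : V₁ → W) (g₂ : V₂ → W),
      IsDiracSum G₁ G₂ f₁ f₂ i₀ y₁ y₂ G g₁ g₂ := by
  classical
  let W := V₁ ⊕ {v : V₂ // ∀ i, f₂ i ≠ v}
  let g₁ : V₁ → W := Sum.inl
  let g₂ : V₂ → W := fun v =>
    if hv : ∃ i, f₂ i = v then Sum.inl (f₁ hv.choose)
    else Sum.inr ⟨v, fun i hi => hv ⟨i, hi⟩⟩
  have g₂f : ∀ i, g₂ (f₂ i) = Sum.inl (f₁ i) := by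
    intro i
    have hv : ∃ j, f₂ j = f₂ i := ⟨i, rfl⟩
    simp only [g₂, hv, dif_pos]
    rw [h₂ hv.choose_spec]
  have g₂n : ∀ v (hv : ∀ i, f₂ i ≠ v), g₂ v = Sum.inr ⟨v, hv⟩ := by
    intro v hv
    have : ¬ ∃ i, f₂ i = v := fun ⟨i, hi⟩ => hv i hi
    simp only [g₂, this, dif_neg, not_false_eq_true]
  have i₁ : Function.Injective g₁ := Sum.inl_injective
  have i₂ : Function.Injective g₂ := by
    intro v w hvw
    by_cases hv : ∃ i, f₂ i = v
    · obtain ⟨i, rfl⟩ := hv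
      by_cases hw : ∃ i, f₂ i = w
      · obtain ⟨j, rfl⟩ := hw
        rw [g₂f, g₂f] at hvw
        rw [h₁ (Sum.inl_injective hvw)]
      · push Not at hw
        rw [g₂f, g₂n w hw] at hvw
        exact absurd hvw (by simp)
    · push Not at hv
      by_cases hw : ∃ i, f₂ i = w
      · obtain ⟨j, rfl⟩ := hw
        rw [g₂f, g₂n v hv] at hvw
        exact absurd hvw (by simp)
      · push Not at hw
        rw [g₂n v hv, g₂n w hw] at hvw
        exact congrArg Subtype.val (Sum.inr_injective hvw)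
  have hgy : g₁ y₁ ≠ g₂ y₂ := by
    rw [g₂n y₂ o₂]
    simp [g₁]
  let G : SimpleGraph W :=
    { Adj := fun u v =>
        (∃ a a', G₁.Adj a a' ∧ s(a, a') ≠ s(f₁ i₀, y₁) ∧ g₁ a = u ∧ g₁ a' = v) ∨
        (∃ b b', G₂.Adj b b' ∧ s(b, b') ≠ s(f₂ i₀, y₂) ∧ g₂ b = u ∧ g₂ b' = v) ∨
        s(u, v) = s(g₁ y₁, g₂ y₂)
      symm := by
        constructor
        rintro a b (⟨u, v, h, h1, h2, h3⟩ | ⟨u, v, h, h1, h2, h3⟩ | h)
        · exact Or.inl ⟨v, u, h.symm, by rwa [Sym2.eq_swap], h3, h2⟩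
        · exact Or.inr (Or.inl ⟨v, u, h.symm, by rwa [Sym2.eq_swap], h3, h2⟩)
        · exact Or.inr (Or.inr (by rw [Sym2.eq_swap]; exact h))
      loopless := by
        constructor
        rintro a (⟨u, v, h, h1, h2, h3⟩ | ⟨u, v, h, h1, h2, h3⟩ | h)
        · have : u = v := i₁ (h2.trans h3.symm)
          rw [this] at h; exact G₁.loopless.1 v h
        · have : u = v := i₂ (h2.trans h3.symm)
          rw [this] at h; exact G₂.loopless.1 v h
        · rw [Sym2.eq_iff] at h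
          rcases h with ⟨h1, h2⟩ | ⟨h1, h2⟩
          · exact hgy (h1.symm.trans h2)
          · exact hgy (h2.symm.trans h1) }
  refine ⟨W, inferInstance, G, g₁, g₂, i₁, i₂, ?_, ?_, fun u v => Iff.rfl⟩
  · rintro (a | ⟨b, hb⟩)
    · exact Or.inl ⟨a, rfl⟩
    · exact Or.inr ⟨b, g₂n b hb⟩
  · intro a b
    constructor
    · intro hab
      by_cases hb : ∃ i, f₂ i = b
      · obtain ⟨i, rfl⟩ := hb
        rw [g₂f] at hab
        exact ⟨i, (Sum.inl_injective hab).symm, rfl⟩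
      · push Not at hb
        rw [g₂n b hb] at hab
        exact absurd hab (by simp [g₁])
    · rintro ⟨i, rfl, rfl⟩
      rw [g₂f]

/-! ### The join of the ten-vertex graph with a complete graph -/

/-- The join of `G1` with the complete graph on `r` vertices. -/
def J (r : ℕ) : SimpleGraph (Fin 10 ⊕ Fin r) where
  Adj u v := u ≠ v ∧ ∀ a b, u = Sum.inl a → v = Sum.inl b → G1.Adj a b
  symm := ⟨fun _ _ h => ⟨h.1.symm, fun a b ha hb => (h.2 b a hb ha).symm⟩⟩
  loopless := ⟨fun _ h => h.1 rfl⟩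

lemma J_inl {r : ℕ} (a b : Fin 10) : (J r).Adj (Sum.inl a) (Sum.inl b) ↔ G1.Adj a b := by
  constructor
  · intro h
    exact h.2 a b rfl rfl
  · intro h
    refine ⟨fun e => h.ne (Sum.inl_injective e), fun a' b' ha hb => ?_⟩
    rw [← Sum.inl_injective ha, ← Sum.inl_injective hb]
    exact h

lemma J_mix {r : ℕ} (a : Fin 10) (i : Fin r) : (J r).Adj (Sum.inl a) (Sum.inr i) :=
  ⟨by simp, fun _ _ _ h => by simp at h⟩

lemma J_inr {r : ℕ} {i j : Fin r} (h : i ≠ j) : (J r).Adj (Sum.inr i) (Sum.inr j) :=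
  ⟨fun e => h (Sum.inr_injective e), fun _ _ h => by simp at h⟩

/-- In a colouring with `4 + r` colours in which the `r` new vertices have different colours not
used on the ten old vertices, the old vertices use at most four colours. -/
lemma exists_four {r : ℕ} (c : Fin 10 ⊕ Fin r → Fin (4 + r))
    (h1 : Function.Injective (fun i => c (Sum.inr i)))
    (h2 : ∀ a i, c (Sum.inl a) ≠ c (Sum.inr i)) :
    ∃ d : Fin 10 → Fin 4, ∀ a b, d a = d b ↔ c (Sum.inl a) = c (Sum.inl b) := by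
  classical
  let S : Finset (Fin (4 + r)) := Finset.univ.image (fun i => c (Sum.inr i))
  have hS : S.card = r := by
    rw [Finset.card_image_of_injective _ h1, Finset.card_univ, Fintype.card_fin]
  have hc : Fintype.card {x // x ∉ S} = 4 := by
    rw [Fintype.card_subtype_compl (fun x => x ∈ S)]
    simp [hS]
  let e := Fintype.equivFinOfCardEq hc
  have hn : ∀ a, c (Sum.inl a) ∉ S := by
    intro a ha
    simp only [S, Finset.mem_image, Finset.mem_univ, true_and] at ha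
    obtain ⟨i, hi⟩ := ha
    exact h2 a i hi.symm
  refine ⟨fun a => e ⟨c (Sum.inl a), hn a⟩, fun a b => ?_⟩
  rw [e.injective.eq_iff, Subtype.mk.injEq]

lemma J_not_colorable (r : ℕ) : ¬ (J r).Colorable (4 + r) := by
  rintro ⟨C⟩
  obtain ⟨d, hd⟩ := exists_four C
    (fun i j hij => by
      by_contra hne
      exact C.valid (J_inr hne) hij)
    (fun a i => C.valid (J_mix a i))
  apply not_colorable
  exact ⟨SimpleGraph.Coloring.mk d (fun {a b} hab h =>
    C.valid ((J_inl a b).mpr hab) ((hd a b).mp h))⟩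

lemma J_colorable (r : ℕ) : (J r).Colorable (5 + r) := by
  obtain ⟨C⟩ := colorable5
  have : (J r).Coloring (Fin 5 ⊕ Fin r) := SimpleGraph.Coloring.mk (Sum.map C id) (by
    rintro (a | i) (b | j) h
    · have := C.valid ((J_inl a b).mp h)
      simpa using this
    · simp
    · simp
    · simpa using h.1)
  have h := this.colorable
  simpa using h

lemma edge_col : ∀ a b : Fin 10, G1.Adj a b → ∃ c : Fin 10 → Fin 4, ∀ u v : Fin 10, G1.Adj u v →
    ¬ ((u = a ∧ v = b) ∨ (u = b ∧ v = a)) → c u ≠ c v := by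
  intro a b hab
  obtain ⟨c, -, hc⟩ := edge_critical a b hab
  exact ⟨c, hc⟩

lemma J_delete (r : ℕ) (u v : Fin 10 ⊕ Fin r) (huv : (J r).Adj u v) :
    ∃ c : Fin 10 ⊕ Fin r → Fin (4 + r), ∀ p q, (J r).Adj p q →
      ¬ ((p = u ∧ q = v) ∨ (p = v ∧ q = u)) → c p ≠ c q := by
  classical
  -- it is enough to use a type of `4 + r` colours
  have red : ∀ (T : Type) [Fintype T], Fintype.card T = 4 + r →
      (∃ c : Fin 10 ⊕ Fin r → T, ∀ p q, (J r).Adj p q →
        ¬ ((p = u ∧ q = v) ∨ (p = v ∧ q = u)) → c p ≠ c q) →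
      ∃ c : Fin 10 ⊕ Fin r → Fin (4 + r), ∀ p q, (J r).Adj p q →
        ¬ ((p = u ∧ q = v) ∨ (p = v ∧ q = u)) → c p ≠ c q := by
    rintro T _ hT ⟨c, hc⟩
    refine ⟨fun p => Fintype.equivFinOfCardEq hT (c p), fun p q hpq hn he => ?_⟩
    exact hc p q hpq hn ((Fintype.equivFinOfCardEq hT).injective he)
  have hcard : Fintype.card (Fin 4 ⊕ Fin r) = 4 + r := by simp
  -- old vertex against new vertex
  have mixed : ∀ (a : Fin 10) (i : Fin r), ∃ c : Fin 10 ⊕ Fin r → Fin 4 ⊕ Fin r,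
      ∀ p q, (J r).Adj p q →
        ¬ ((p = Sum.inl a ∧ q = Sum.inr i) ∨ (p = Sum.inr i ∧ q = Sum.inl a)) → c p ≠ c q := by
    intro a i
    obtain ⟨w, hw⟩ := no_isolated a
    obtain ⟨c, hc⟩ := edge_col a w hw
    refine ⟨Sum.elim (fun b => if b = a then Sum.inr i else Sum.inl (c b)) Sum.inr, ?_⟩
    rintro (b | j) (b' | j') hpq hn
    · have hbb := (J_inl b b').mp hpq
      simp only [Sum.elim_inl]
      by_cases h1 : b = a
      · have h2 : b' ≠ a := fun h2 => hbb.ne (h1.trans h2.symm)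
        simp [h1, h2]
      · by_cases h2 : b' = a
        · simp [h1, h2]
        · simp only [h1, h2, if_false, ne_eq, Sum.inl.injEq]
          exact hc b b' hbb (by rintro (⟨h3, -⟩ | ⟨-, h3⟩) <;> contradiction)
    · simp only [Sum.elim_inl, Sum.elim_inr]
      by_cases h1 : b = a
      · simp only [h1, if_true, ne_eq, Sum.inr.injEq]
        intro h2
        exact hn (Or.inl ⟨by rw [h1], by rw [h2]⟩)
      · simp [h1]
    · simp only [Sum.elim_inl, Sum.elim_inr]
      by_cases h1 : b' = a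
      · simp only [h1, if_true, ne_eq, Sum.inr.injEq]
        intro h2
        exact hn (Or.inr ⟨by rw [h2], by rw [h1]⟩)
      · simp [h1]
    · simp only [Sum.elim_inr, ne_eq, Sum.inr.injEq]
      intro h2
      exact hpq.1 (by rw [h2])
  rcases u with a | i <;> rcases v with b | j
  · obtain ⟨c, hc⟩ := edge_col a b ((J_inl a b).mp huv)
    refine red (Fin 4 ⊕ Fin r) hcard ⟨Sum.map c id, ?_⟩
    rintro (p | i) (q | j) hpq hn
    · simp only [Sum.map_inl, ne_eq, Sum.inl.injEq]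
      apply hc p q ((J_inl p q).mp hpq)
      simpa using hn
    · simp
    · simp
    · simpa using hpq.1
  · exact red (Fin 4 ⊕ Fin r) hcard (mixed a j)
  · refine red (Fin 4 ⊕ Fin r) hcard ?_
    obtain ⟨c, hc⟩ := mixed b i
    exact ⟨c, fun p q hpq hn => hc p q hpq (fun h => hn h.symm)⟩
  · have hij : i ≠ j := fun h => huv.1 (by rw [h])
    obtain ⟨C⟩ := colorable5
    have hr : 0 < r := Fin.pos i
    refine red (Fin 5 ⊕ {t : Fin r // t ≠ j}) ?_ ⟨Sum.elim (fun b => Sum.inl (C b))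
      (fun t => if ht : t = j then Sum.inr ⟨i, hij⟩ else Sum.inr ⟨t, ht⟩), ?_⟩
    · rw [Fintype.card_sum, Fintype.card_subtype_compl (fun t => t = j)]
      simp
      omega
    · rintro (p | t) (q | t') hpq hn
      · have := C.valid ((J_inl p q).mp hpq)
        simpa using this
      · simp only [Sum.elim_inl, Sum.elim_inr]
        split_ifs <;> simp
      · simp only [Sum.elim_inl, Sum.elim_inr]
        split_ifs <;> simp
      · have htt : t ≠ t' := fun h => hpq.1 (by rw [h])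
        simp only [Sum.elim_inr]
        split_ifs with h1 h2 h2
        · exact absurd (h1.trans h2.symm) htt
        · simp only [ne_eq, Sum.inr.injEq, Subtype.mk.injEq]
          intro h3
          exact hn (Or.inr ⟨by rw [h1], by rw [h3]⟩)
        · simp only [ne_eq, Sum.inr.injEq, Subtype.mk.injEq]
          intro h3
          exact hn (Or.inl ⟨by rw [h3], by rw [h2]⟩)
        · simpa using htt

lemma chrom_lt {V : Type} (G : SimpleGraph V) (n : ℕ) (h : G.Colorable (4 + n)) :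
    G.chromaticNumber < ((5 + n : ℕ) : ℕ∞) := by
  refine lt_of_le_of_lt h.chromaticNumber_le ?_
  exact_mod_cast (by omega : 4 + n < 5 + n)

lemma colorable_of_lt {V : Type} (G : SimpleGraph V) (n : ℕ)
    (h : G.chromaticNumber < ((5 + n : ℕ) : ℕ∞)) : G.Colorable (4 + n) := by
  rw [← SimpleGraph.chromaticNumber_le_iff_colorable]
  have e : ((5 + n : ℕ) : ℕ∞) = ((4 + n : ℕ) : ℕ∞) + 1 := by
    norm_cast
    omega
  rw [e] at h
  exact Order.le_of_lt_add_one h

lemma J_critical (r : ℕ) : IsCritical (J r) (5 + r) := by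
  constructor
  · refine le_antisymm (J_colorable r).chromaticNumber_le ?_
    by_contra hcon
    rw [not_le] at hcon
    exact J_not_colorable r (colorable_of_lt _ r hcon)
  · intro H hH
    apply chrom_lt
    have hmiss : ∃ a b, (J r).Adj a b ∧ ¬ H.Adj a b := by
      by_contra hcon
      push Not at hcon
      apply hH
      rw [eq_top_iff]
      refine ⟨?_, ?_⟩
      · rintro (v | i) _
        · obtain ⟨w, hw⟩ := no_isolated v
          exact (hcon _ _ ((J_inl v w).mpr hw)).fst_mem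
        · exact (hcon _ _ (J_mix 0 i)).snd_mem
      · intro v w hvw
        exact hcon v w hvw
    obtain ⟨a, b, hab, hnab⟩ := hmiss
    obtain ⟨c, hc⟩ := J_delete r a b hab
    refine ⟨SimpleGraph.Coloring.mk (fun v => c v.1) ?_⟩
    intro u v huv
    have h1 : H.Adj u.1 v.1 := huv
    apply hc u.1 v.1 (H.adj_sub h1)
    rintro (⟨e1, e2⟩ | ⟨e1, e2⟩)
    · rw [e1, e2] at h1; exact hnab h1
    · rw [e1, e2] at h1; exact hnab h1.symm

/-- The list of the vertices of the complete `(3 + s)`-graph. -/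
def fc (r s : ℕ) (hs : s ≤ r) : Fin (3 + s) → Fin 10 ⊕ Fin r :=
  Fin.append (fun i : Fin 3 => Sum.inl ((![0, 1, 7] : Fin 3 → Fin 10) i))
    (fun i : Fin s => Sum.inr (Fin.castLE hs i))

lemma fc_left (r s : ℕ) (hs : s ≤ r) (i : Fin 3) :
    fc r s hs (Fin.castAdd s i) = Sum.inl ((![0, 1, 7] : Fin 3 → Fin 10) i) := by
  simp [fc]

lemma fc_right (r s : ℕ) (hs : s ≤ r) (i : Fin s) :
    fc r s hs (Fin.natAdd 3 i) = Sum.inr (Fin.castLE hs i) := by
  simp [fc]

lemma tri : ∀ i j : Fin 3, i ≠ j →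
    G1.Adj ((![0, 1, 7] : Fin 3 → Fin 10) i) ((![0, 1, 7] : Fin 3 → Fin 10) j) := by
  decide +kernel

lemma fc_clique (r s : ℕ) (hs : s ≤ r) (i j : Fin (3 + s)) (hij : i ≠ j) :
    (J r).Adj (fc r s hs i) (fc r s hs j) := by
  induction i using Fin.addCases with
  | left i =>
    induction j using Fin.addCases with
    | left j =>
      rw [fc_left, fc_left, J_inl]
      exact tri i j (fun h => hij (by rw [h]))
    | right j =>
      rw [fc_left, fc_right]
      exact J_mix _ _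
  | right i =>
    induction j using Fin.addCases with
    | left j =>
      rw [fc_left, fc_right]
      exact (J_mix _ _).symm
    | right j =>
      rw [fc_right, fc_right]
      refine J_inr (fun h => hij ?_)
      have : i = j := by simpa [Fin.ext_iff] using h
      rw [this]

lemma fc_inj (r s : ℕ) (hs : s ≤ r) : Function.Injective (fc r s hs) := by
  intro i j h
  by_contra hne
  exact (fc_clique r s hs i j hne).ne h

lemma fc_out (r s : ℕ) (hs : s ≤ r) (i : Fin (3 + s)) : fc r s hs i ≠ Sum.inl 9 := by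
  induction i using Fin.addCases with
  | left i =>
    rw [fc_left]
    intro h
    have h3 : ∀ i : Fin 3, (![0, 1, 7] : Fin 3 → Fin 10) i ≠ 9 := by decide
    exact h3 i (Sum.inl_injective h)
  | right i =>
    rw [fc_right]
    simp

lemma data (r s : ℕ) (hs : s ≤ r) : IsDiracData (5 + r) (3 + s) (J r) (J r) (fc r s hs)
    (fc r s hs) (Fin.castAdd s 0) (Sum.inl 9) (Sum.inl 9) where
  crit₁ := J_critical r
  crit₂ := J_critical r
  inj₁ := fc_inj r s hs
  inj₂ := fc_inj r s hs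
  clique₁ := fc_clique r s hs
  clique₂ := fc_clique r s hs
  out₁ := fc_out r s hs
  out₂ := fc_out r s hs
  adj₁ := by
    rw [fc_left, J_inl]
    decide
  adj₂ := by
    rw [fc_left, J_inl]
    decide

/-- The gadget property of the join. -/
lemma gadget {r : ℕ} (c : Fin 10 ⊕ Fin r → Fin (4 + r))
    (h : ∀ u v, (J r).Adj u v → s(u, v) ≠ s(Sum.inl 0, Sum.inl 9) →
      s(u, v) ≠ s(Sum.inl 0, Sum.inl 7) → c u ≠ c v) :
    (c (Sum.inl 0) ≠ c (Sum.inl 7) → c (Sum.inl 9) = c (Sum.inl 0)) ∧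
      (c (Sum.inl 0) = c (Sum.inl 7) → c (Sum.inl 9) = c (Sum.inl 1)) := by
  obtain ⟨d, hd⟩ := exists_four c
    (fun i j hij => by
      by_contra hne
      exact h _ _ (J_inr hne) (by simp) (by simp) hij)
    (fun a i => h _ _ (J_mix a i) (by simp) (by simp))
  have hk := key' d (fun u v huv h1 h2 he => by
    refine h (Sum.inl u) (Sum.inl v) ((J_inl u v).mpr huv) ?_ ?_ ((hd u v).mp he)
    · intro h3
      apply h2
      simpa [Sym2.eq_iff] using h3
    · intro h3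
      apply h1
      simpa [Sym2.eq_iff] using h3)
  constructor
  · intro h1
    exact ((hd 9 0).mp (hk.1 (fun h2 => h1 ((hd 0 7).mp h2))).symm)
  · intro h1
    exact (hd 9 1).mp (hk.2 ((hd 0 7).mpr h1))

lemma not_critical {r s : ℕ} (hs : s ≤ r) {W : Type} {G : SimpleGraph W}
    {g₁ g₂ : Fin 10 ⊕ Fin r → W}
    (hG : IsDiracSum (J r) (J r) (fc r s hs) (fc r s hs) (Fin.castAdd s 0) (Sum.inl 9)
      (Sum.inl 9) G g₁ g₂) : ¬ IsCritical G (5 + r) := by
  intro hcrit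
  have f0 : fc r s hs (Fin.castAdd s 0) = Sum.inl 0 := by rw [fc_left]; rfl
  have f1 : fc r s hs (Fin.castAdd s 1) = Sum.inl 1 := by rw [fc_left]; rfl
  have f7 : fc r s hs (Fin.castAdd s 2) = Sum.inl 7 := by rw [fc_left]; rfl
  have e0 : g₁ (Sum.inl 0) = g₂ (Sum.inl 0) := (hG.glue _ _).mpr ⟨_, f0, f0⟩
  have e1 : g₁ (Sum.inl 1) = g₂ (Sum.inl 1) := (hG.glue _ _).mpr ⟨_, f1, f1⟩
  have e7 : g₁ (Sum.inl 7) = g₂ (Sum.inl 7) := (hG.glue _ _).mpr ⟨_, f7, f7⟩
  let G' : G.Subgraph := (⊤ : G.Subgraph).deleteEdges {s(g₁ (Sum.inl 0), g₁ (Sum.inl 7))}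
  have h07 : G.Adj (g₁ (Sum.inl 0)) (g₁ (Sum.inl 7)) := by
    rw [hG.adj]
    refine Or.inl ⟨_, _, (J_inl 0 7).mpr (by decide), ?_, rfl, rfl⟩
    rw [f0]
    simp
  have hne : G' ≠ ⊤ := by
    intro h
    have : (⊤ : G.Subgraph).Adj (g₁ (Sum.inl 0)) (g₁ (Sum.inl 7)) := h07
    rw [← h] at this
    rw [SimpleGraph.Subgraph.deleteEdges_adj] at this
    exact this.2 rfl
  obtain ⟨C⟩ := colorable_of_lt _ r (hcrit.2 G' hne)
  have hmem : ∀ v : W, v ∈ G'.verts := fun v => trivial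
  let c : W → Fin (4 + r) := fun v => C ⟨v, hmem v⟩
  have hc : ∀ a b : W, G.Adj a b → s(a, b) ≠ s(g₁ (Sum.inl 0), g₁ (Sum.inl 7)) → c a ≠ c b := by
    intro a b hab hne
    apply C.valid
    show G'.Adj a b
    rw [SimpleGraph.Subgraph.deleteEdges_adj]
    exact ⟨hab, hne⟩
  have sinj : ∀ (g : Fin 10 ⊕ Fin r → W), Function.Injective g → ∀ u v u' v',
      s(g u, g v) = s(g u', g v') → s(u, v) = s(u', v') := by
    intro g hg u v u' v' h
    rw [Sym2.eq_iff] at h ⊢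
    rcases h with ⟨h1, h2⟩ | ⟨h1, h2⟩
    · exact Or.inl ⟨hg h1, hg h2⟩
    · exact Or.inr ⟨hg h1, hg h2⟩
  have k1 := gadget (fun v => c (g₁ v)) (fun u v huv h1 h2 => hc _ _
    ((hG.adj _ _).mpr (Or.inl ⟨u, v, huv, by rw [f0]; exact h1, rfl, rfl⟩))
    (fun h => h2 (sinj g₁ hG.inj₁ _ _ _ _ h)))
  have k2 := gadget (fun v => c (g₂ v)) (fun u v huv h1 h2 => hc _ _
    ((hG.adj _ _).mpr (Or.inr (Or.inl ⟨u, v, huv, by rw [f0]; exact h1, rfl, rfl⟩)))
    (fun h => h2 (sinj g₂ hG.inj₂ _ _ _ _ (by rw [← e0, ← e7]; exact h))))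
  have h99 : c (g₁ (Sum.inl 9)) ≠ c (g₂ (Sum.inl 9)) := by
    refine hc _ _ ((hG.adj _ _).mpr (Or.inr (Or.inr rfl))) ?_
    intro h
    rw [Sym2.eq_iff] at h
    rcases h with ⟨h1, -⟩ | ⟨h1, -⟩
    · have := hG.inj₁ h1
      simp at this
    · have := hG.inj₁ h1
      simp at this
  simp only [e0, e1, e7] at k1
  by_cases h : c (g₂ (Sum.inl 0)) = c (g₂ (Sum.inl 7))
  · exact h99 ((k1.2 h).trans (k2.2 h).symm)
  · exact h99 ((k1.1 h).trans (k2.1 h).symm)

/-- **Dirac's construction fails to preserve criticality for every pair in the open range.** For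
all `k ≥ 5` and `3 ≤ h ≤ k - 2` there is a finite graph which arises by Dirac's construction from
two finite `k`-critical graphs, glued along complete `h`-graphs, and which is not `k`-critical. -/
theorem result : ∀ k h : ℕ, 5 ≤ k → 3 ≤ h → h ≤ k - 2 →
    ∃ (W : Type) (_ : Finite W) (G : SimpleGraph W), IsDiracGraph k h G ∧ ¬ IsCritical G k := by
  intro k h hk hh hkh
  obtain ⟨r, rfl⟩ : ∃ r, k = 5 + r := ⟨k - 5, by omega⟩
  obtain ⟨s, rfl⟩ : ∃ s, h = 3 + s := ⟨h - 3, by omega⟩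
  have hs : s ≤ r := by omega
  have hd := data r s hs
  obtain ⟨W, hW, G, g₁, g₂, hG⟩ := exists_sum (J r) (J r) (fc r s hs) (fc r s hs)
    (Fin.castAdd s 0) (Sum.inl 9) (Sum.inl 9) hd.inj₁ hd.inj₂ hd.out₂
  exact ⟨W, hW, G, ⟨_, _, inferInstance, inferInstance, J r, J r, _, _, _, _, _, g₁, g₂, hd, hG⟩,
    not_critical hs hG⟩

end Pool.Agent.Results.MP_e06427_co.EveryOpenPair
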